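import Mathlib

set_option autoImplicit false

/-! The two-generator weak algorithm in a free associative algebra over a field. -/

namespace Pool.Agent.Lib.MP_afddf0_al

open FreeAlgebra

section

variable {k : Type*} [Field k] {Y : Type*}

/-- the matrix representation whose corner is the right cofactor of the letter `y` -/
noncomputable def cofHom (y : Y) :
    FreeAlgebra k Y →ₐ[k] Matrix (Fin 2) (Fin 2) (FreeAlgebra k Y) := by
  classical
  exact FreeAlgebra.lift k (fun x => !![ι k x, (if x = y then 1 else 0); 0, 0])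

/-- the augmentation, as a map to the algebra itself -/
noncomputable def aug : FreeAlgebra k Y →ₐ[k] k := FreeAlgebra.lift k (fun _ => 0)

lemma aug_ι (x : Y) : aug (ι k x) = 0 := by simp [aug]

lemma cofHom_entries (y : Y) (f : FreeAlgebra k Y) :
    cofHom y f 0 0 = f ∧ cofHom y f 1 0 = 0 ∧
      cofHom y f 1 1 = algebraMap k _ (aug f) := by
  classical
  induction f with
  | grade0 r =>
    simp [Matrix.algebraMap_matrix_apply]
  | grade1 x =>
    simp [cofHom, aug]
  | mul a b ha hb =>
    obtain ⟨ha1, ha2, ha3⟩ := ha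
    obtain ⟨hb1, hb2, hb3⟩ := hb
    simp [Matrix.mul_apply, Fin.sum_univ_two, ha1, ha2, ha3, hb1, hb2, hb3]
  | add a b ha hb =>
    obtain ⟨ha1, ha2, ha3⟩ := ha
    obtain ⟨hb1, hb2, hb3⟩ := hb
    simp [ha1, ha2, ha3, hb1, hb2, hb3]

/-- right cofactor of the letter `y` -/
noncomputable def cof (y : Y) : FreeAlgebra k Y →ₗ[k] FreeAlgebra k Y where
  toFun f := cofHom y f 0 1
  map_add' a b := by simp
  map_smul' c a := by simp

lemma cof_mul (y : Y) (f g : FreeAlgebra k Y) :
    cof y (f * g) = f * cof y g + cof y f * algebraMap k _ (aug g) := by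
  have hf := cofHom_entries y f
  have hg := cofHom_entries y g
  simp [cof, Matrix.mul_apply, Fin.sum_univ_two, hf.1, hg.2.2]

lemma cof_algebraMap (y : Y) (r : k) : cof y (algebraMap k (FreeAlgebra k Y) r) = 0 := by
  simp [cof, Matrix.algebraMap_matrix_apply]

open Classical in
lemma cof_ι (y x : Y) : cof y (ι k x) = if x = y then 1 else 0 := by
  simp [cof, cofHom]

open Classical in
lemma expansion (f : FreeAlgebra k Y) : ∃ s : Finset Y, (∀ y, y ∉ s → cof y f = 0) ∧
    f = algebraMap k _ (aug f) + ∑ y ∈ s, cof y f * ι k y := by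
  induction f with
  | grade0 r =>
    exact ⟨∅, fun y _ => cof_algebraMap y r, by simp⟩
  | grade1 x =>
    refine ⟨{x}, fun y hy => ?_, ?_⟩
    · rw [cof_ι, if_neg]
      rintro rfl
      simp at hy
    · simp [cof_ι, aug_ι]
  | mul a b ha hb =>
    obtain ⟨s, hs, ha⟩ := ha
    obtain ⟨t, ht, hb⟩ := hb
    have hs' : a = algebraMap k _ (aug a) + ∑ y ∈ s ∪ t, cof y a * ι k y := by
      rw [← Finset.sum_subset (Finset.subset_union_left)]
      · exact ha
      · intro y _ hy; rw [hs y hy, zero_mul]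
    have ht' : b = algebraMap k _ (aug b) + ∑ y ∈ s ∪ t, cof y b * ι k y := by
      rw [← Finset.sum_subset (Finset.subset_union_right)]
      · exact hb
      · intro y _ hy; rw [ht y hy, zero_mul]
    refine ⟨s ∪ t, fun y hy => ?_, ?_⟩
    · rw [cof_mul, hs y (fun h => hy (Finset.mem_union_left _ h)),
        ht y (fun h => hy (Finset.mem_union_right _ h))]
      simp
    · have e1 : ∑ y ∈ s ∪ t, cof y (a * b) * ι k y
          = a * ∑ y ∈ s ∪ t, cof y b * ι k y
            + (∑ y ∈ s ∪ t, cof y a * ι k y) * algebraMap k _ (aug b) := by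
        rw [Finset.mul_sum, Finset.sum_mul, ← Finset.sum_add_distrib]
        refine Finset.sum_congr rfl fun y _ => ?_
        rw [cof_mul, add_mul, mul_assoc, mul_assoc, mul_assoc, Algebra.commutes]
      have e2 : ∑ y ∈ s ∪ t, cof y b * ι k y = b - algebraMap k _ (aug b) := by
        rw [eq_sub_iff_add_eq, add_comm]; exact ht'.symm
      have e3 : ∑ y ∈ s ∪ t, cof y a * ι k y = a - algebraMap k _ (aug a) := by
        rw [eq_sub_iff_add_eq, add_comm]; exact hs'.symm
      rw [e1, e2, e3]
      simp only [map_mul]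
      noncomm_ring
  | add a b ha hb =>
    obtain ⟨s, hs, ha⟩ := ha
    obtain ⟨t, ht, hb⟩ := hb
    have hs' : a = algebraMap k _ (aug a) + ∑ y ∈ s ∪ t, cof y a * ι k y := by
      rw [← Finset.sum_subset (Finset.subset_union_left)]
      · exact ha
      · intro y _ hy; rw [hs y hy, zero_mul]
    have ht' : b = algebraMap k _ (aug b) + ∑ y ∈ s ∪ t, cof y b * ι k y := by
      rw [← Finset.sum_subset (Finset.subset_union_right)]
      · exact hb
      · intro y _ hy; rw [ht y hy, zero_mul]
    refine ⟨s ∪ t, fun y hy => ?_, ?_⟩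
    · rw [map_add, hs y (fun h => hy (Finset.mem_union_left _ h)),
        ht y (fun h => hy (Finset.mem_union_right _ h)), add_zero]
    · have e2 : ∑ y ∈ s ∪ t, cof y b * ι k y = b - algebraMap k _ (aug b) := by
        rw [eq_sub_iff_add_eq, add_comm]; exact ht'.symm
      have e3 : ∑ y ∈ s ∪ t, cof y a * ι k y = a - algebraMap k _ (aug a) := by
        rw [eq_sub_iff_add_eq, add_comm]; exact hs'.symm
      simp only [map_add, add_mul, Finset.sum_add_distrib, e2, e3]
      abel

lemma scalar_of_cof_eq_zero (f : FreeAlgebra k Y) (h : ∀ y, cof y f = 0) :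
    f = algebraMap k _ (aug f) := by
  obtain ⟨s, _, hf⟩ := expansion f
  rw [Finset.sum_eq_zero (fun y _ => by rw [h y, zero_mul]), add_zero] at hf
  exact hf

/-- The length filtration: `V n` is the span of the words of length `< n`. -/
noncomputable def V : ℕ → Submodule k (FreeAlgebra k Y)
  | 0 => ⊥
  | n + 1 => ⨅ y : Y, (V n).comap (cof y)

lemma mem_V_zero (f : FreeAlgebra k Y) : f ∈ V 0 ↔ f = 0 := by
  simp [V]

lemma mem_V_succ (n : ℕ) (f : FreeAlgebra k Y) : f ∈ V (n + 1) ↔ ∀ y, cof y f ∈ V n := by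
  simp [V]

lemma V_mono_succ (n : ℕ) : ∀ f : FreeAlgebra k Y, f ∈ V n → f ∈ V (n + 1) := by
  induction n with
  | zero =>
    intro f hf
    rw [mem_V_zero] at hf
    rw [hf]; exact zero_mem _
  | succ n ih =>
    intro f hf
    rw [mem_V_succ] at hf ⊢
    exact fun y => ih _ (hf y)

lemma V_mono {m n : ℕ} (h : m ≤ n) (f : FreeAlgebra k Y) (hf : f ∈ V m) : f ∈ V n := by
  induction h with
  | refl => exact hf
  | step _ ih => exact V_mono_succ _ _ ih

lemma cof_mem (n : ℕ) (y : Y) (f : FreeAlgebra k Y) (hf : f ∈ V n) : cof y f ∈ V n := by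
  cases n with
  | zero => rw [mem_V_zero] at hf; rw [hf, map_zero]; exact zero_mem _
  | succ n => rw [mem_V_succ] at hf; exact V_mono_succ _ _ (hf y)

lemma mul_scalar_mem (n : ℕ) (c : k) (f : FreeAlgebra k Y) (hf : f ∈ V n) :
    f * algebraMap k _ c ∈ V n := by
  rw [← Algebra.commutes, ← Algebra.smul_def]
  exact Submodule.smul_mem _ _ hf

lemma mul_mem_V (n : ℕ) (f : FreeAlgebra k Y) (hf : f ∈ V n) (m : ℕ) :
    ∀ g : FreeAlgebra k Y, g ∈ V m → f * g ∈ V (n + m) := by
  induction m with
  | zero =>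
    intro g hg
    rw [mem_V_zero] at hg
    rw [hg, mul_zero]; exact zero_mem _
  | succ m ih =>
    intro g hg
    rw [← add_assoc, mem_V_succ]
    intro y
    rw [cof_mul]
    refine add_mem (ih _ ((mem_V_succ _ _).1 hg y)) ?_
    exact V_mono (Nat.le_add_right _ _) _ (mul_scalar_mem _ _ _ (cof_mem _ _ _ hf))

lemma algebraMap_mem_V (r : k) : algebraMap k (FreeAlgebra k Y) r ∈ V 1 := by
  rw [mem_V_succ]
  intro y
  rw [cof_algebraMap]; exact zero_mem _

lemma exists_mem_V (f : FreeAlgebra k Y) : ∃ n, f ∈ V n := by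
  classical
  induction f with
  | grade0 r => exact ⟨1, algebraMap_mem_V r⟩
  | grade1 x =>
    refine ⟨2, ?_⟩
    rw [mem_V_succ]
    intro y
    rw [cof_ι]
    split_ifs
    · simpa using algebraMap_mem_V (k := k) (Y := Y) 1
    · exact zero_mem _
  | mul a b ha hb =>
    obtain ⟨n, hn⟩ := ha
    obtain ⟨m, hm⟩ := hb
    exact ⟨n + m, mul_mem_V n a hn m b hm⟩
  | add a b ha hb =>
    obtain ⟨n, hn⟩ := ha
    obtain ⟨m, hm⟩ := hb
    exact ⟨max n m, add_mem (V_mono (le_max_left _ _) _ hn) (V_mono (le_max_right _ _) _ hm)⟩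

/-- Division step. -/
lemma division (A : ℕ) (a b : FreeAlgebra k Y) (ha : a ∈ V (A + 1)) (hb : b ∈ V (A + 1)) (N : ℕ) :
    ∀ p r : FreeAlgebra k Y, p ∈ V N → p ≠ 0 → a * p - b * r ∈ V A →
      ∃ c, a - b * c ∈ V A := by
  induction N with
  | zero =>
    intro p r hp hp0 _
    exact absurd ((mem_V_zero _).1 hp) hp0
  | succ N ih =>
    intro p r hp hp0 h
    by_cases hall : ∀ y, cof y p = 0
    · have hps := scalar_of_cof_eq_zero p hall
      set c0 := aug p with hc0
      have hc0ne : c0 ≠ 0 := by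
        intro h0
        apply hp0
        rw [hps, h0, map_zero]
      refine ⟨r * algebraMap k _ c0⁻¹, ?_⟩
      have := mul_scalar_mem A c0⁻¹ _ h
      have e : (a * p - b * r) * algebraMap k _ c0⁻¹ = a - b * (r * algebraMap k _ c0⁻¹) := by
        rw [sub_mul, mul_assoc, mul_assoc]
        conv_lhs => rw [hps]
        rw [← map_mul, mul_inv_cancel₀ hc0ne, map_one, mul_one]
      rw [e] at this
      exact this
    · push Not at hall
      obtain ⟨y, hy⟩ := hall
      refine ih (cof y p) (cof y r) ((mem_V_succ _ _).1 hp y) hy ?_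
      have h1 := cof_mem A y _ h
      rw [map_sub, cof_mul, cof_mul] at h1
      have h2 : cof y a * algebraMap k _ (aug p) ∈ V A :=
        mul_scalar_mem _ _ _ ((mem_V_succ _ _).1 ha y)
      have h3 : cof y b * algebraMap k _ (aug r) ∈ V A :=
        mul_scalar_mem _ _ _ ((mem_V_succ _ _).1 hb y)
      have e : a * cof y p - b * cof y r
          = (a * cof y p + cof y a * algebraMap k _ (aug p)
              - (b * cof y r + cof y b * algebraMap k _ (aug r)))
            - cof y a * algebraMap k _ (aug p) + cof y b * algebraMap k _ (aug r) := by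
        abel
      rw [e]
      exact add_mem (sub_mem h1 h2) h3

/-- The certificate produced by the Euclidean algorithm for a right-dependent pair. -/
def Cert {R : Type*} [Ring R] (a b : R) : Prop :=
  ∃ d w1 w2 v1 v2 n1 n2 u1 u2 : R,
    a = d * w1 ∧ b = d * w2 ∧ a * n1 + b * n2 = 0 ∧
    v1 * w1 + n1 * u1 = 1 ∧ v1 * w2 + n1 * u2 = 0 ∧
    v2 * w1 + n2 * u1 = 0 ∧ v2 * w2 + n2 * u2 = 1

lemma Cert.swap {R : Type*} [Ring R] {a b : R} (h : Cert a b) : Cert b a := by
  obtain ⟨d, w1, w2, v1, v2, n1, n2, u1, u2, h1, h2, h3, h4, h5, h6, h7⟩ := h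
  exact ⟨d, w2, w1, v2, v1, n2, n1, u2, u1, h2, h1, by rw [add_comm]; exact h3, h7, h6, h5, h4⟩

lemma Cert.add_mul {R : Type*} [Ring R] {a b : R} (c : R) (h : Cert (a - b * c) b) :
    Cert a b := by
  obtain ⟨d, w1, w2, v1, v2, n1, n2, u1, u2, h1, h2, h3, h4, h5, h6, h7⟩ := h
  refine ⟨d, w1 + w2 * c, w2, v1, v2 - c * v1, n1, n2 - c * n1, u1 + u2 * c, u2,
    ?_, h2, ?_, ?_, h5, ?_, ?_⟩
  · rw [mul_add, ← mul_assoc, ← h1, ← h2]; noncomm_ring
  · calc a * n1 + b * (n2 - c * n1) = (a - b * c) * n1 + b * n2 := by noncomm_ring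
      _ = 0 := h3
  · calc v1 * (w1 + w2 * c) + n1 * (u1 + u2 * c)
        = (v1 * w1 + n1 * u1) + (v1 * w2 + n1 * u2) * c := by noncomm_ring
      _ = 1 := by rw [h4, h5]; simp
  · calc (v2 - c * v1) * (w1 + w2 * c) + (n2 - c * n1) * (u1 + u2 * c)
        = (v2 * w1 + n2 * u1) + (v2 * w2 + n2 * u2) * c
          - c * (v1 * w1 + n1 * u1) - c * (v1 * w2 + n1 * u2) * c := by noncomm_ring
      _ = 0 := by rw [h4, h5, h6, h7]; simp
  · calc (v2 - c * v1) * w2 + (n2 - c * n1) * u2
        = (v2 * w2 + n2 * u2) - c * (v1 * w2 + n1 * u2) := by noncomm_ring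
      _ = 1 := by rw [h5, h7]; simp

lemma cert_zero_right {R : Type*} [Ring R] (a : R) : Cert a 0 :=
  ⟨a, 1, 0, 1, 0, 0, 1, 0, 1, by simp, by simp, by simp, by simp, by simp, by simp, by simp⟩

/-- A right-dependent pair in a free algebra admits a certificate. -/
theorem cert_of_dependent (N : ℕ) : ∀ (A B : ℕ), A + B ≤ N → ∀ a b : FreeAlgebra k Y,
    a ∈ V A → b ∈ V B → ∀ p r : FreeAlgebra k Y, a * p + b * r = 0 → (p ≠ 0 ∨ r ≠ 0) →
      Cert a b := by
  induction N with
  | zero =>
    intro A B hAB a b ha hb p r _ _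
    have hB : B = 0 := by omega
    subst hB
    rw [(mem_V_zero _).1 hb]
    exact cert_zero_right a
  | succ N ih =>
    intro A B hAB a b ha hb p r hpr hne
    by_cases hb0 : b = 0
    · rw [hb0]; exact cert_zero_right a
    by_cases ha0 : a = 0
    · rw [ha0]; exact (cert_zero_right b).swap
    have hp : p ≠ 0 := by
      intro hp
      rw [hp, mul_zero, zero_add] at hpr
      rcases mul_eq_zero.1 hpr with h | h
      · exact hb0 h
      · rcases hne with h' | h'
        · exact h' hp
        · exact h' h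
    have hr : r ≠ 0 := by
      intro hr
      rw [hr, mul_zero, add_zero] at hpr
      rcases mul_eq_zero.1 hpr with h | h
      · exact ha0 h
      · exact hp h
    obtain ⟨A', rfl⟩ : ∃ A', A = A' + 1 := by
      cases A with
      | zero => exact absurd ((mem_V_zero _).1 ha) ha0
      | succ A' => exact ⟨A', rfl⟩
    obtain ⟨B', rfl⟩ : ∃ B', B = B' + 1 := by
      cases B with
      | zero => exact absurd ((mem_V_zero _).1 hb) hb0
      | succ B' => exact ⟨B', rfl⟩
    rcases le_total B' A' with hle | hle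
    · obtain ⟨M, hM⟩ := exists_mem_V p
      obtain ⟨c, hc⟩ := division A' a b ha (V_mono (by omega) _ hb) M p (-r) hM hp (by
        have : a * p - b * (-r) = 0 := by rw [mul_neg, sub_neg_eq_add]; exact hpr
        rw [this]; exact zero_mem _)
      refine Cert.add_mul c (ih A' (B' + 1) (by omega) _ b hc hb p (r + c * p) ?_ (Or.inl hp))
      calc (a - b * c) * p + b * (r + c * p) = a * p + b * r := by noncomm_ring
        _ = 0 := hpr
    · obtain ⟨M, hM⟩ := exists_mem_V r
      obtain ⟨c, hc⟩ := division B' b a hb (V_mono (by omega) _ ha) M r (-p) hM hr (by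
        have : b * r - a * (-p) = 0 := by rw [mul_neg, sub_neg_eq_add, add_comm]; exact hpr
        rw [this]; exact zero_mem _)
      refine Cert.swap (Cert.add_mul c
        (ih B' (A' + 1) (by omega) _ a hc ha r (p + c * r) ?_ (Or.inl hr)))
      calc (b - a * c) * r + a * (p + c * r) = a * p + b * r := by noncomm_ring
        _ = 0 := hpr

theorem cert_of_dependent' (a b p r : FreeAlgebra k Y) (h : a * p + b * r = 0)
    (hne : p ≠ 0 ∨ r ≠ 0) : Cert a b := by
  obtain ⟨A, hA⟩ := exists_mem_V a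
  obtain ⟨B, hB⟩ := exists_mem_V b
  exact cert_of_dependent (A + B) A B le_rfl a b hA hB p r h hne

end

/-- Units of a free algebra over a field are scalars. -/
theorem unit_scalar {k : Type*} [Field k] {X : Type*} (b h : FreeAlgebra k X) (hb : h * b = 1) :
    ∃ c : k, b = algebraMap k _ c := by
  classical
  -- grade by a central variable
  let ψ : FreeAlgebra k X →ₐ[k] Polynomial (FreeAlgebra k X) :=
    FreeAlgebra.lift k (fun x => Polynomial.C (ι k x) * Polynomial.X)
  have h1 : ψ h * ψ b = 1 := by rw [← map_mul, hb, map_one]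
  have hb0 : ψ b ≠ 0 := by
    intro h0; rw [h0, mul_zero] at h1; exact zero_ne_one h1
  have hh0 : ψ h ≠ 0 := by
    intro h0; rw [h0, zero_mul] at h1; exact zero_ne_one h1
  have hdeg : (ψ h).natDegree + (ψ b).natDegree = 0 := by
    rw [← Polynomial.natDegree_mul hh0 hb0, h1, Polynomial.natDegree_one]
  have hdb : (ψ b).natDegree = 0 := by omega
  obtain ⟨c, hc⟩ := Polynomial.natDegree_eq_zero.1 hdb
  let E1 : Polynomial (FreeAlgebra k X) →+* FreeAlgebra k X :=
    Polynomial.eval₂RingHom' (RingHom.id _) 1 (fun a => Commute.one_right _)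
  let E0 : Polynomial (FreeAlgebra k X) →+* FreeAlgebra k X :=
    Polynomial.eval₂RingHom' (RingHom.id _) 0 (fun a => Commute.zero_right _)
  have e1 : ∀ f : FreeAlgebra k X, E1 (ψ f) = f := by
    intro f
    induction f with
    | grade0 r => simp [ψ, E1, Polynomial.algebraMap_apply]
    | grade1 x => simp [ψ, E1]
    | mul a b ha hb => rw [map_mul, map_mul, ha, hb]
    | add a b ha hb => rw [map_add, map_add, ha, hb]
  have e0 : ∀ f : FreeAlgebra k X, ∃ c : k, E0 (ψ f) = algebraMap k _ c := by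
    intro f
    induction f with
    | grade0 r => exact ⟨r, by simp [ψ, E0, Polynomial.algebraMap_apply]⟩
    | grade1 x => exact ⟨0, by simp [ψ, E0]⟩
    | mul a b ha hb =>
      obtain ⟨c, hc⟩ := ha
      obtain ⟨d, hd⟩ := hb
      exact ⟨c * d, by rw [map_mul, map_mul, hc, hd, map_mul]⟩
    | add a b ha hb =>
      obtain ⟨c, hc⟩ := ha
      obtain ⟨d, hd⟩ := hb
      exact ⟨c + d, by rw [map_add, map_add, hc, hd, map_add]⟩
  obtain ⟨r, hr⟩ := e0 b
  refine ⟨r, ?_⟩
  rw [← hr, ← hc]
  conv_lhs => rw [← e1 b, ← hc]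
  simp [E0, E1]

end Pool.Agent.Lib.MP_afddf0_al
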